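import Pool.Agent.R143.MDS.Main

set_option autoImplicit false

/-!
# Poisson limit for the probability that a random linear code is MDS

For every `lam > 0` and every sequence of triples `(n, k, q)` with `1 ≤ k ≤ n`, `n → ∞`, `q → ∞`
(`q` the cardinality of a finite field) and `choose n k / q → lam`, the probability that a uniformly
random `[n, k]` code over the field with `q` elements is MDS tends to `exp (-lam)`.
-/

namespace Pool.Agent.Results.MP_498a73_pr.PoissonMDS

open Filter Topology

/-- The code `C` (a subspace of `F ^ n`) is maximum distance separable: its minimum Hamming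
distance, that is the least distance of two distinct codewords, is `n - dim C + 1`. -/
def IsMDS {F : Type} [Field F] [DecidableEq F] {n : ℕ} (C : Submodule F (Fin n → F)) : Prop :=
  IsLeast {d : ℕ | ∃ x ∈ C, ∃ y ∈ C, x ≠ y ∧ hammingDist x y = d}
    (n - Module.finrank F C + 1)

/-- `P_{n,k}(q)`, `q = |F|`: the probability that a uniformly random `k`-dimensional subspace of
`F ^ n` is MDS. -/
noncomputable def P (F : Type) [Field F] [Fintype F] [DecidableEq F] (n k : ℕ) : ℝ :=
  (Nat.card {C : Submodule F (Fin n → F) // Module.finrank F C = k ∧ IsMDS C} : ℝ) /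
    (Nat.card {C : Submodule F (Fin n → F) // Module.finrank F C = k} : ℝ)

/-- The Poisson limit along arbitrary sequences. -/
theorem result (lam : ℝ) (hlam : 0 < lam) (n k : ℕ → ℕ) (F : ℕ → Type)
    [∀ j, Field (F j)] [∀ j, Fintype (F j)] [∀ j, DecidableEq (F j)]
    (hk1 : ∀ j, 1 ≤ k j) (hkn : ∀ j, k j ≤ n j) (hn : Tendsto n atTop atTop)
    (hq : Tendsto (fun j => Fintype.card (F j)) atTop atTop)
    (h : Tendsto (fun j => ((n j).choose (k j) : ℝ) / (Fintype.card (F j) : ℝ)) atTop (𝓝 lam)) :
    Tendsto (fun j => P (F j) (n j) (k j)) atTop (𝓝 (Real.exp (-lam))) :=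
  Pool.Agent.R143.MDS.main lam hlam n k F hk1 hkn hn hq h

end Pool.Agent.Results.MP_498a73_pr.PoissonMDS
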